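import Pool.Agent.Lib.MP_6d445e_gt.Iface

/-!
# DISJ: disjoint refinement
-/

universe u

open Cardinal Filter

namespace Pool.Agent.Lib.MP_6d445e_gt.H21

theorem disj : DisjStatement.{u} := by
  intro A _ T a
  let r : T → T → Prop := WellOrderingRel
  have hwf : WellFounded r := WellOrderingRel.isWellOrder.wf
  let b : T → A := fun t => a t ⊓ (⨆ (t' : T) (_ : r t' t), a t')ᶜ
  have hb : ∀ t, b t ≤ a t := fun t => inf_le_left
  have key : ∀ t t', r t t' → b t ⊓ b t' = ⊥ := by
    intro t t' h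
    refine le_bot_iff.1 ?_
    have h1 : b t ≤ ⨆ (s : T) (_ : r s t'), a s :=
      (hb t).trans (le_iSup₂ (f := fun s (_ : r s t') => a s) t h)
    have h2 : b t' ≤ (⨆ (s : T) (_ : r s t'), a s)ᶜ := inf_le_right
    exact (inf_le_inf h1 h2).trans (inf_compl_self _).le
  refine ⟨b, hb, ?_, le_antisymm (iSup_mono hb) ?_⟩
  · intro t t' h
    rcases trichotomous_of r t t' with h1 | h1 | h1
    · exact key t t' h1
    · exact absurd h1 h
    · rw [inf_comm]
      exact key t' t h1
  · refine iSup_le fun t => ?_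
    induction t using hwf.induction with
    | _ t ih =>
      have h1 : (⨆ (t' : T) (_ : r t' t), a t') ≤ ⨆ t, b t := iSup₂_le fun t' ht' => ih t' ht'
      calc a t ≤ b t ⊔ ⨆ (t' : T) (_ : r t' t), a t' := by
            have h2 : a t ⊓ ((⨆ (t' : T) (_ : r t' t), a t')ᶜ ⊔ ⨆ (t' : T) (_ : r t' t), a t') =
                a t := by
              rw [compl_sup_eq_top, inf_top_eq]
            calc a t = a t ⊓ ((⨆ (t' : T) (_ : r t' t), a t')ᶜ ⊔
                  ⨆ (t' : T) (_ : r t' t), a t') := h2.symm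
              _ = b t ⊔ a t ⊓ ⨆ (t' : T) (_ : r t' t), a t' := inf_sup_left _ _ _
              _ ≤ b t ⊔ ⨆ (t' : T) (_ : r t' t), a t' := sup_le_sup_left inf_le_right _
        _ ≤ ⨆ t, b t := sup_le (le_iSup b t) h1

end Pool.Agent.Lib.MP_6d445e_gt.H21
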