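import Pool.Agent.Lib.MP_6d445e_gt.Iface

/-!
# NG: almost every ultrafilter containing `gen A N` is `N`-generic
-/

universe u

open Cardinal Filter

namespace Pool.Agent.Lib.MP_6d445e_gt.H21

open Pool.Agent.Lib.MP_e6fef2_lc

theorem ng : NgStatement.{u} := by
  intro A T _
  filter_upwards [(all_gen A).1 T, all_club.{u}.2.1] with N hN hc
  have hcount : Countable {φ : T → A // In N φ} := by
    have h0 : Countable N := hc.to_subtype
    refine Function.Injective.countable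
      (f := fun φ : {φ : T → A // In N φ} => (⟨⟨T → A, φ.1⟩, φ.2⟩ : N)) ?_
    intro φ ψ h
    have h1 : (⟨T → A, φ.1⟩ : El.{u}) = ⟨T → A, ψ.1⟩ := congrArg Subtype.val h
    exact Subtype.ext (eq_of_heq (Sigma.mk.inj h1).2)
  have h1 : ∀ᶠ g in ae A, ∀ φ : {φ : T → A // In N φ},
      (⨆ t : {t : T // In N t}, φ.1 t.1) ∈ g → ∃ t : {t : T // In N t}, φ.1 t.1 ∈ g :=
    ae_all fun φ => (ae_iSup fun t : {t : T // In N t} => φ.1 t.1).mono fun _ h => h.1
  filter_upwards [h1] with g hg hgen φ hφ hsup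
  have h2 : (⨆ t : {t : T // In N t}, φ t.1) ∈ g := by
    have h3 := hN φ hφ
    rw [iSup_subtype'] at h3
    exact g.mono h3 (g.inf _ _ hgen hsup)
  obtain ⟨t, ht⟩ := hg ⟨φ, hφ⟩ h2
  exact ⟨t.1, t.2, ht⟩

end Pool.Agent.Lib.MP_6d445e_gt.H21
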